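import Mathlib
import Pool.Agent.Lib.MP_5b01b8_co_h12.Main

/-!
# MP_5b01b8_co: graphs of bounded pathwidth have an ordering with linear ordered Ramsey number

For all `k` and `r ≥ 1` there is a constant `C` such that every graph on `n` vertices with a path
decomposition of width at most `k` has an ordering with `r`-colour ordered Ramsey number at most
`C * n`.

The vertex `v` is placed at position `σ v` of the ordering `σ`; a colouring `c` of the pairs of
`Fin N` has a monochromatic copy of the ordered graph iff there are an order embedding
`g : Fin n ↪o Fin N` and a colour `b` with `c (g (σ v)) (g (σ w)) = b` for all edges `v w` with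
`σ v < σ w`.

Proof: give the vertices `k + 1` slots along the path decomposition; the ordering is by slot, then
by time. In the hypergraph of monochromatic transversal cliques with `k + 1` vertices (of positive
density, by Ramsey's theorem) delete for every prescribed step the cliques which cannot be moved
forward in the prescribed slot.
-/

set_option autoImplicit false

namespace Pool.Agent.Results.MP_5b01b8_co.BoundedPathwidth

theorem result :
    ∀ k r : ℕ, 1 ≤ r → ∃ C : ℕ, ∀ (n : ℕ) (G : SimpleGraph (Fin n)),
      Pool.Agent.OrdPathwidth.HasPathDecomposition G k →
        ∃ σ : Fin n ≃ Fin n, ∀ N : ℕ, C * n ≤ N → ∀ c : Fin N → Fin N → Fin r,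
          ∃ (g : Fin n ↪o Fin N) (b : Fin r),
            ∀ v w : Fin n, G.Adj v w → σ v < σ w → c (g (σ v)) (g (σ w)) = b :=
  fun k r hr => Pool.Agent.OrdPathwidth.linear_of_pathwidth k r hr

end Pool.Agent.Results.MP_5b01b8_co.BoundedPathwidth
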