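import Mathlib
import Pool.Agent.Lib.MP_5b01b8_co_TW.Final

/-!
# MP_5b01b8_co: graphs of bounded degree and bounded treewidth have an ordering with linear ordered
Ramsey number

For all `Δ`, `w` and `r ≥ 1` there is a constant `C` such that every graph on `n` vertices of
maximum degree at most `Δ` and treewidth at most `w` has an ordering with `r`-colour ordered Ramsey
number at most `C * n`.

The vertex `v` is placed at position `σ v` of the ordering `σ`; a colouring `c` of the pairs of
`Fin N` has a monochromatic copy of the ordered graph iff there are an order embedding
`g : Fin n ↪o Fin N` and a colour `b` with `c (g (σ v)) (g (σ w)) = b` for all edges `v w` with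
`σ v < σ w`.

Proof: the graph is laid out along a balanced tree, a bounded number of vertices per node, edges
only inside nodes and between a node and its parent.  In the host there are windows of
geometrically growing sizes, cyclically distributed over `T` intervals, and one colour for every
pair of intervals which is one-sided dense from every window to the next `T - 1` windows
(induction on the number of the colours which are alive, maximal inequality for the choice of the
windows).  Ramsey's theorem makes the colours equal.  The layout is embedded by a random chain of
vertices, one per window; the loss in the steps of the depth first traversal is bounded by an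
antichain lemma and summable.
-/

set_option autoImplicit false

namespace Pool.Agent.Results.MP_5b01b8_co.BoundedTreewidth

theorem result :
    ∀ Δ w r : ℕ, 1 ≤ r → ∃ C : ℕ, ∀ (n : ℕ) (G : SimpleGraph (Fin n)),
      (∀ v, (G.neighborSet v).ncard ≤ Δ) → Pool.Agent.OrdTW.HasTreeDecomposition G w →
        ∃ σ : Fin n ≃ Fin n, ∀ N : ℕ, C * n ≤ N → ∀ c : Fin N → Fin N → Fin r,
          ∃ (g : Fin n ↪o Fin N) (b : Fin r),
            ∀ v w : Fin n, G.Adj v w → σ v < σ w → c (g (σ v)) (g (σ w)) = b :=
  fun Δ w r hr => Pool.Agent.OrdTW.linear_of_treewidth Δ w r hr

end Pool.Agent.Results.MP_5b01b8_co.BoundedTreewidth
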