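import Mathlib
import Pool.Agent.Lib.MP_5b01b8_co_FO.Main

/-!
# MP_5b01b8_co: forests have an ordering with nearly linear ordered Ramsey number

There are constants `C r` such that every forest on `n` vertices (of any maximum degree) has an
ordering which for every number `r ≥ 1` of colours has `r`-colour ordered Ramsey number at most
`C r * n * (log₂ n + 1) ^ r`.

The vertex `v` is placed at position `σ v` of the ordering `σ`; a colouring `c` of the pairs of
`Fin N` has a monochromatic copy of the ordered graph iff there are an order embedding
`g : Fin n ↪o Fin N` and a colour `b` with `c (g (σ v)) (g (σ w)) = b` for all edges `v w` with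
`σ v < σ w`.

Proof: the forest is laid out by a depth first search with the heaviest child last in
`2 log₂ n + 2` slots, such that the parent of a vertex is the present content of a neighbouring
slot; the ordering is by the parity of the slot, then by slot, then by time.  In the host either
one colour has walks through all the slots in which the deletion argument costs `O(1 / M)` per
step, or there is a pair of large sets in which this colour is sparse; induction on the number of
colours.
-/

set_option autoImplicit false

namespace Pool.Agent.Results.MP_5b01b8_co.ForestsNearLinear

theorem result :
    ∃ C : ℕ → ℕ, ∀ (n : ℕ) (G : SimpleGraph (Fin n)), G.IsAcyclic →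
      ∃ σ : Fin n ≃ Fin n, ∀ r : ℕ, 1 ≤ r →
        ∀ N : ℕ, C r * n * (Nat.log 2 n + 1) ^ r ≤ N →
          ∀ c : Fin N → Fin N → Fin r, ∃ (g : Fin n ↪o Fin N) (b : Fin r),
            ∀ v w : Fin n, G.Adj v w → σ v < σ w → c (g (σ v)) (g (σ w)) = b :=
  Pool.Agent.OrdForest.forest_ordering

end Pool.Agent.Results.MP_5b01b8_co.ForestsNearLinear
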