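import Mathlib
import Pool.Agent.Lib.MP_5b01b8_co.UParams

/-!
# MP_5b01b8_co: no fixed polynomial bound for the best ordering of bounded-degree graphs

For every `K ≥ 1` and all large `n` there is a graph on `n` vertices with maximum degree at most
`(5000 K) ^ (11 K)` such that, for every ordering of its vertices, the two-colour ordered Ramsey
number is larger than `n ^ K`.

The vertex `v` is placed at position `σ v` of the ordering `σ`; a colouring `c` of the pairs of
`Fin N` has a monochromatic copy of the ordered graph iff there are an order embedding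
`g : Fin n ↪o Fin N` and a colour `b` with `c (g (σ v)) (g (σ w)) = b` for all edges `v w` with
`σ v < σ w`.
-/

set_option autoImplicit false

namespace Pool.Agent.Results.MP_5b01b8_co.UnboundedExponent

theorem result :
    ∀ K : ℕ, 1 ≤ K → ∃ n₀ : ℕ, ∀ n : ℕ, n₀ ≤ n →
      ∃ G : SimpleGraph (Fin n),
        (∀ v : Fin n, (G.neighborSet v).ncard ≤ (5000 * K) ^ (11 * K)) ∧
        ∀ (σ : Fin n ≃ Fin n) (N : ℕ), N ≤ n ^ K →
          ∃ c : Fin N → Fin N → Fin 2, ∀ (g : Fin n ↪o Fin N) (b : Fin 2),
            ¬ ∀ v w : Fin n, G.Adj v w → σ v < σ w → c (g (σ v)) (g (σ w)) = b :=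
  fun K hK => Pool.Agent.OrdRam.unbounded_bound K hK

end Pool.Agent.Results.MP_5b01b8_co.UnboundedExponent
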